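import Pool.Agent.W663.SX.Stm

set_option autoImplicit false
open scoped Matrix.Norms.L2Operator Matrix ComplexOrder

noncomputable section

namespace Pool.Agent.W59.SX

open Pool.Agent.W663.SX

theorem sum_upper (δ t : ℝ) (J : ℕ) (hδ : 0 < δ) (ht : 1 ≤ t) :
    δ * ∑ m ∈ Finset.range J, t / (t + ((m : ℝ) + 1) * δ) ^ 2 ≤ 1 - t / (t + J * δ) := by
  induction J with
  | zero =>
    have : t ≠ 0 := by linarith
    simp [this]
  | succ J ih =>
    rw [Finset.sum_range_succ, mul_add]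
    have h1 : 0 < t + (J : ℝ) * δ := by positivity
    have h2 : 0 < t + ((J : ℝ) + 1) * δ := by positivity
    have key : δ * (t / (t + ((J : ℝ) + 1) * δ) ^ 2) ≤
        t / (t + J * δ) - t / (t + ((J : ℝ) + 1) * δ) := by
      rw [div_sub_div _ _ h1.ne' h2.ne', ← mul_div_assoc]
      rw [div_le_div_iff₀ (by positivity) (by positivity)]
      have e : t * (t + ((J : ℝ) + 1) * δ) - (t + J * δ) * t = δ * t := by ring
      rw [e]
      have : (t + (J : ℝ) * δ) * (t + ((J : ℝ) + 1) * δ) ≤ (t + ((J : ℝ) + 1) * δ) ^ 2 := by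
        nlinarith
      exact mul_le_mul_of_nonneg_left this (by positivity)
    push_cast
    linarith

theorem sum_lower (δ t : ℝ) (J : ℕ) (hδ : 0 < δ) (ht : 1 ≤ t) :
    t / (t + δ) - t / (t + ((J : ℝ) + 1) * δ) ≤
      δ * ∑ m ∈ Finset.range J, t / (t + ((m : ℝ) + 1) * δ) ^ 2 := by
  induction J with
  | zero => simp
  | succ J ih =>
    rw [Finset.sum_range_succ, mul_add]
    have h1 : 0 < t + ((J : ℝ) + 1) * δ := by positivity
    have h2 : 0 < t + ((J : ℝ) + 1 + 1) * δ := by positivity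
    have key : t / (t + ((J : ℝ) + 1) * δ) - t / (t + ((J : ℝ) + 1 + 1) * δ) ≤
        δ * (t / (t + ((J : ℝ) + 1) * δ) ^ 2) := by
      rw [div_sub_div _ _ h1.ne' h2.ne', ← mul_div_assoc]
      rw [div_le_div_iff₀ (by positivity) (by positivity)]
      have e : t * (t + ((J : ℝ) + 1 + 1) * δ) - (t + ((J : ℝ) + 1) * δ) * t = δ * t := by ring
      rw [e]
      have : (t + ((J : ℝ) + 1) * δ) ^ 2 ≤ (t + ((J : ℝ) + 1) * δ) * (t + ((J : ℝ) + 1 + 1) * δ) := by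
        nlinarith
      exact mul_le_mul_of_nonneg_left this (by positivity)
    push_cast
    linarith

variable {A : Type} [CStarAlgebra A]

theorem cont_inv (D : A) (K : ℝ) (hs : ∀ t ∈ spectrum ℝ D, 1 ≤ t ∧ t ≤ K) (s : ℝ) (hs0 : 0 ≤ s) :
    ContinuousOn (fun t : ℝ => (t + s)⁻¹) (spectrum ℝ D) := by
  refine ContinuousOn.inv₀ (by fun_prop) ?_
  intro t ht
  have := (hs t ht).1
  linarith

theorem cont_sqrt (D : A) : ContinuousOn (fun t : ℝ => √t) (spectrum ℝ D) :=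
  Real.continuous_sqrt.continuousOn

theorem cont_sqrt_inv (D : A) (K : ℝ) (hs : ∀ t ∈ spectrum ℝ D, 1 ≤ t ∧ t ≤ K) :
    ContinuousOn (fun t : ℝ => (√t)⁻¹) (spectrum ℝ D) := by
  refine ContinuousOn.inv₀ Real.continuous_sqrt.continuousOn ?_
  intro t ht
  have := (hs t ht).1
  positivity

theorem RDR (D : A) (K : ℝ) (hD : IsSelfAdjoint D) (hs : ∀ t ∈ spectrum ℝ D, 1 ≤ t ∧ t ≤ K)
    (s : ℝ) (hs0 : 0 ≤ s) :
    Rm D s * D * Rm D s = cfc (fun t : ℝ => t / (t + s) ^ 2) D := by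
  have c1 := cont_inv D K hs s hs0
  unfold Rm
  conv_lhs => rw [show cfc (fun t : ℝ => (t + s)⁻¹) D * D =
    cfc (fun t : ℝ => (t + s)⁻¹) D * cfc (fun t : ℝ => t) D by rw [cfc_id' ℝ D hD]]
  have c2 : ContinuousOn (fun t : ℝ => t) (spectrum ℝ D) := continuousOn_id
  have c3 : ContinuousOn (fun t : ℝ => (t + s)⁻¹ * t) (spectrum ℝ D) := c1.mul c2
  rw [← cfc_mul _ _ D c1 c2, ← cfc_mul _ _ D c3 c1]
  refine cfc_congr ?_
  intro t ht
  have : t + s ≠ 0 := by have := (hs t ht).1; linarith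
  simp only
  field_simp

theorem sum_RDR (D : A) (K : ℝ) (hD : IsSelfAdjoint D)
    (hs : ∀ t ∈ spectrum ℝ D, 1 ≤ t ∧ t ≤ K) (δ : ℝ) (J : ℕ) (hδ : 0 < δ) :
    (δ : ℂ) • ∑ m ∈ Finset.range J, Rm D (((m : ℝ) + 1) * δ) * D * Rm D (((m : ℝ) + 1) * δ) =
      cfc (fun t : ℝ => δ * ∑ m ∈ Finset.range J, t / (t + ((m : ℝ) + 1) * δ) ^ 2) D := by
  have hc : ∀ m : ℕ, ContinuousOn (fun t : ℝ => t / (t + ((m : ℝ) + 1) * δ) ^ 2)
      (spectrum ℝ D) := by
    intro m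
    refine ContinuousOn.div (by fun_prop) (by fun_prop) ?_
    intro t ht
    have h1 := (hs t ht).1
    positivity
  rw [cfc_const_mul _ _ _ (by
    refine continuousOn_finsetSum _ (fun m _ => hc m))]
  have e1 : (fun t : ℝ => ∑ m ∈ Finset.range J, t / (t + ((m : ℝ) + 1) * δ) ^ 2) =
      ∑ m ∈ Finset.range J, (fun t : ℝ => t / (t + ((m : ℝ) + 1) * δ) ^ 2) := by
    funext t; simp
  rw [e1, cfc_sum _ _ _ (fun m _ => hc m), Complex.coe_smul]
  congr 1
  refine Finset.sum_congr rfl (fun m _ => ?_)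
  exact RDR D K hD hs _ (by positivity)

theorem norm_sum_RDR (D : A) (K : ℝ) (hD : IsSelfAdjoint D)
    (hs : ∀ t ∈ spectrum ℝ D, 1 ≤ t ∧ t ≤ K) (δ : ℝ) (J : ℕ) (hδ : 0 < δ) :
    ‖(δ : ℂ) • ∑ m ∈ Finset.range J, Rm D (((m : ℝ) + 1) * δ) * D *
      Rm D (((m : ℝ) + 1) * δ)‖ ≤ 1 := by
  rw [sum_RDR D K hD hs δ J hδ]
  refine norm_cfc_le zero_le_one ?_
  intro t ht
  have h1 := (hs t ht).1
  have h2 := sum_upper δ t J hδ h1
  have h3 : 0 ≤ t / (t + J * δ) := by positivity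
  rw [Real.norm_of_nonneg]
  · linarith
  · refine mul_nonneg hδ.le (Finset.sum_nonneg (fun m _ => ?_))
    positivity

theorem hs_mul_hs (D : A) (K : ℝ) (hD : IsSelfAdjoint D)
    (hs' : ∀ t ∈ spectrum ℝ D, 1 ≤ t ∧ t ≤ K) : hs D * hs D = D := by
  unfold hs
  rw [← cfc_mul _ _ D (cont_sqrt D) (cont_sqrt D)]
  conv_rhs => rw [← cfc_id' ℝ D hD]
  refine cfc_congr ?_
  intro t ht
  have h1 := (hs' t ht).1
  exact Real.mul_self_sqrt (by linarith)

theorem tCF : S_CF := by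
  intro A _ D K hD hs'
  refine ⟨hs_mul_hs D K hD hs', ?_, ?_, ?_, ?_, ?_, ?_, ?_⟩
  · unfold hs hi
    rw [← cfc_mul _ _ D (cont_sqrt_inv D K hs') (cont_sqrt D)]
    rw [show (1 : A) = cfc (fun _ : ℝ => (1 : ℝ)) D by rw [cfc_const_one ℝ D hD]]
    refine cfc_congr ?_
    intro t ht
    have h1 := (hs' t ht).1
    have : √t ≠ 0 := by positivity
    exact inv_mul_cancel₀ this
  · unfold hs hi
    rw [← cfc_mul _ _ D (cont_sqrt D) (cont_sqrt_inv D K hs')]
    rw [show (1 : A) = cfc (fun _ : ℝ => (1 : ℝ)) D by rw [cfc_const_one ℝ D hD]]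
    refine cfc_congr ?_
    intro t ht
    have h1 := (hs' t ht).1
    have : √t ≠ 0 := by positivity
    exact mul_inv_cancel₀ this
  · refine norm_cfc_le zero_le_one ?_
    intro t ht
    have h1 := (hs' t ht).1
    rw [Real.norm_of_nonneg (by positivity)]
    refine inv_le_one_of_one_le₀ ?_
    exact Real.one_le_sqrt.2 h1
  · exact cfc_predicate _ _
  · exact cfc_predicate _ _
  · intro s _; exact cfc_predicate _ _
  · intro δ J hδ
    exact norm_sum_RDR D K hD hs' δ J hδ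

theorem t : S_CF := tCF

end Pool.Agent.W59.SX
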