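import Pool.Agent.W59.SX.CF

set_option autoImplicit false
open scoped Matrix.Norms.L2Operator Matrix ComplexOrder

noncomputable section

namespace Pool.Agent.W59.SX

open Pool.Agent.W663.SX

variable {A : Type} [CStarAlgebra A]

/-- sum Z* c* c Z is bounded by C^2 sum Z* Z -/
theorem norm_sum_conj {n : ℕ} (C : ℝ) (hC : 0 ≤ C) (c Z : Fin n → A) (hc : ∀ i, ‖c i‖ ≤ C) :
    ‖∑ i, star (c i * Z i) * (c i * Z i)‖ ≤ C ^ 2 * ‖∑ i, star (Z i) * Z i‖ := by
  letI := CStarAlgebra.spectralOrder A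
  haveI := CStarAlgebra.spectralOrderedRing A
  have h1 : ∑ i, star (c i * Z i) * (c i * Z i) ≤ (C ^ 2 : ℝ) • ∑ i, star (Z i) * Z i := by
    rw [Finset.smul_sum]
    refine Finset.sum_le_sum (fun i _ => ?_)
    have e : star (c i * Z i) * (c i * Z i) = star (Z i) * (star (c i) * c i) * Z i := by
      rw [star_mul]; simp only [mul_assoc]
    rw [e]
    have hb : IsSelfAdjoint (star (c i) * c i) := IsSelfAdjoint.star_mul_self (c i)
    refine (CStarAlgebra.star_left_conjugate_le_norm_smul (a := Z i) hb).trans ?_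
    refine smul_le_smul_of_nonneg_right ?_ (star_mul_self_nonneg (Z i))
    rw [CStarRing.norm_star_mul_self, sq]
    exact mul_le_mul (hc i) (hc i) (norm_nonneg _) hC
  have h0 : 0 ≤ ∑ i, star (c i * Z i) * (c i * Z i) :=
    Finset.sum_nonneg (fun i _ => star_mul_self_nonneg _)
  refine (CStarAlgebra.norm_le_norm_of_nonneg_of_le h0 h1).trans ?_
  rw [norm_smul, Real.norm_of_nonneg (by positivity)]

/-- the sandwich estimate -/
theorem sandwich (h1 : S_CS) {n : ℕ} (C : ℝ) (hC : 0 ≤ C) (c X : Fin n → A)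
    (hc : ∀ i, ‖c i‖ ≤ C) (hX : ‖∑ i, X i * star (X i)‖ ≤ 1) :
    ‖∑ i, X i * (c i * star (X i))‖ ≤ C := by
  have k := h1 A n X (fun i => c i * star (X i))
  have k2 := norm_sum_conj C hC c (fun i => star (X i)) hc
  simp only [star_star] at k2
  have k3 : ‖∑ i, star (c i * star (X i)) * (c i * star (X i))‖ ≤ C ^ 2 := by
    refine k2.trans ?_
    calc C ^ 2 * ‖∑ i, X i * star (X i)‖ ≤ C ^ 2 * 1 :=
          mul_le_mul_of_nonneg_left hX (by positivity)
      _ = C ^ 2 := mul_one _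
  have k4 : ‖∑ i, X i * (c i * star (X i))‖ ^ 2 ≤ C ^ 2 := by
    refine k.trans ?_
    calc ‖∑ i, X i * star (X i)‖ * ‖∑ i, star (c i * star (X i)) * (c i * star (X i))‖ ≤
        1 * C ^ 2 := mul_le_mul hX k3 (norm_nonneg _) zero_le_one
      _ = C ^ 2 := one_mul _
  exact (pow_le_pow_iff_left₀ (norm_nonneg _) hC (by norm_num)).1 k4

theorem norm_DR (D : A) (K : ℝ) (hD : IsSelfAdjoint D) (hs' : ∀ t ∈ spectrum ℝ D, 1 ≤ t ∧ t ≤ K)
    (s : ℝ) (hs0 : 0 ≤ s) : ‖D * Rm D s‖ ≤ 1 := by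
  have c1 := cont_inv D K hs' s hs0
  have c2 : ContinuousOn (fun t : ℝ => t) (spectrum ℝ D) := continuousOn_id
  have e : D * Rm D s = cfc (fun t : ℝ => t * (t + s)⁻¹) D := by
    rw [cfc_mul _ _ D c2 c1, cfc_id' ℝ D hD]; rfl
  rw [e]
  refine norm_cfc_le zero_le_one ?_
  intro t ht
  have h1 := (hs' t ht).1
  rw [Real.norm_of_nonneg (by positivity), mul_inv_le_iff₀ (by positivity)]
  linarith

theorem Rm_inv (D : A) (K : ℝ) (hD : IsSelfAdjoint D) (hs' : ∀ t ∈ spectrum ℝ D, 1 ≤ t ∧ t ≤ K)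
    (s : ℝ) (hs0 : 0 ≤ s) : Rm D s * (D + (s : ℂ) • 1) = 1 ∧ (D + (s : ℂ) • 1) * Rm D s = 1 := by
  have c1 := cont_inv D K hs' s hs0
  have c2 : ContinuousOn (fun t : ℝ => t + s) (spectrum ℝ D) := by fun_prop
  have e : D + (s : ℂ) • 1 = cfc (fun t : ℝ => t + s) D := by
    rw [cfc_add_const s (fun t : ℝ => t) D continuousOn_id hD, cfc_id' ℝ D hD, Algebra.algebraMap_eq_smul_one,
      Complex.coe_smul]
  have e1 : (1 : A) = cfc (fun _ : ℝ => (1 : ℝ)) D := by rw [cfc_const_one ℝ D hD]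
  constructor
  · rw [e, Rm, ← cfc_mul _ _ D c1 c2]
    rw [e1]
    refine cfc_congr ?_
    intro t ht
    have h1 := (hs' t ht).1
    exact inv_mul_cancel₀ (by linarith)
  · rw [e, Rm, ← cfc_mul _ _ D c2 c1]
    rw [e1]
    refine cfc_congr ?_
    intro t ht
    have h1 := (hs' t ht).1
    exact mul_inv_cancel₀ (by linarith)

theorem norm_one_sub (D : A) (K : ℝ) (hD : IsSelfAdjoint D)
    (hs' : ∀ t ∈ spectrum ℝ D, 1 ≤ t ∧ t ≤ K) (hK : 1 ≤ K) (δ : ℝ) (J : ℕ) (hδ : 0 < δ)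
    (hJ : 0 < J) :
    ‖(δ : ℂ) • ∑ m ∈ Finset.range J, Rm D (((m : ℝ) + 1) * δ) * D *
      Rm D (((m : ℝ) + 1) * δ) - 1‖ ≤ δ + K / (J * δ) := by
  have hc : ∀ m : ℕ, ContinuousOn (fun t : ℝ => t / (t + ((m : ℝ) + 1) * δ) ^ 2)
      (spectrum ℝ D) := by
    intro m
    refine ContinuousOn.div (by fun_prop) (by fun_prop) ?_
    intro t ht
    have h1 := (hs' t ht).1
    positivity
  have hcs : ContinuousOn (fun t : ℝ => δ * ∑ m ∈ Finset.range J,
      t / (t + ((m : ℝ) + 1) * δ) ^ 2) (spectrum ℝ D) :=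
    continuousOn_const.mul (continuousOn_finsetSum _ (fun m _ => hc m))
  have e : (δ : ℂ) • ∑ m ∈ Finset.range J, Rm D (((m : ℝ) + 1) * δ) * D *
      Rm D (((m : ℝ) + 1) * δ) - 1 =
      cfc (fun t : ℝ => δ * ∑ m ∈ Finset.range J, t / (t + ((m : ℝ) + 1) * δ) ^ 2 - 1) D := by
    rw [cfc_sub _ _ D hcs continuousOn_const, sum_RDR D K hD hs' δ J hδ, cfc_const_one ℝ D hD]
  rw [e]
  have hJr : (0 : ℝ) < J := by exact_mod_cast hJ
  refine norm_cfc_le (by positivity) ?_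
  intro t ht
  have h1 := (hs' t ht).1
  have h1' := (hs' t ht).2
  have h2 := sum_upper δ t J hδ h1
  have h3 := sum_lower δ t J hδ h1
  have h4 : 0 ≤ t / (t + J * δ) := by positivity
  have h5 : 1 - t / (t + δ) ≤ δ := by
    have : 1 - t / (t + δ) = δ / (t + δ) := by
      field_simp; ring
    rw [this]
    exact div_le_self hδ.le (by linarith)
  have h6 : t / (t + ((J : ℝ) + 1) * δ) ≤ K / (J * δ) := by
    refine div_le_div₀ (by linarith) h1' (by positivity) ?_
    nlinarith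
  rw [Real.norm_of_nonpos (by linarith)]
  linarith

theorem Rm_comm_D (D : A) (hD : IsSelfAdjoint D) (s : ℝ) : Rm D s * D = D * Rm D s := by
  have := (cfc_commute_cfc (fun t : ℝ => (t + s)⁻¹) (fun t : ℝ => t) D)
  rw [cfc_id' ℝ D hD] at this
  exact this

theorem Rm_comm_hs (D : A) (s : ℝ) : Rm D s * hs D = hs D * Rm D s :=
  cfc_commute_cfc (fun t : ℝ => (t + s)⁻¹) (fun t : ℝ => √t) D

theorem hs_comm_D (D : A) (hD : IsSelfAdjoint D) : hs D * D = D * hs D := by
  have := (cfc_commute_cfc (fun t : ℝ => √t) (fun t : ℝ => t) D)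
  rw [cfc_id' ℝ D hD] at this
  exact this

theorem tCO (hCS : S_CS) : S_CO := by
  intro A _ D a κ K hD hs' hK ha hP δ J hδ hJ
  obtain ⟨hh, _, _, _, hsa, _, hRsa, hsum⟩ := tCF A D K hD hs'
  set h := hs D with hh_def
  -- selfadjointness
  have hP' : D * a + h * star κ * h = a * D + h * κ * h := by
    have := hP.star_eq
    rw [star_add, star_mul, star_mul, star_mul, hD.star_eq, ha.star_eq, hsa.star_eq] at this
    rw [← this]; simp only [mul_assoc]
  set μ : A := star κ - κ with hμ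
  have hμn : ‖μ‖ ≤ 2 * ‖κ‖ := by
    rw [hμ]
    refine (norm_sub_le _ _).trans ?_
    rw [norm_star]; linarith
  have hcomm : a * D - D * a = h * μ * h := by
    rw [hμ, mul_sub, sub_mul]
    rw [sub_eq_sub_iff_add_eq_add, add_comm (h * star κ * h), ← hP']
  -- abbreviations
  set s : ℕ → ℝ := fun m => ((m : ℝ) + 1) * δ with hsdef
  have hs0 : ∀ m, 0 ≤ s m := fun m => by rw [hsdef]; positivity
  have hspos : ∀ m, 0 < s m := fun m => by rw [hsdef]; positivity
  have hRa : ∀ m, Rm D (s m) * a = a * Rm D (s m) + Rm D (s m) * (h * μ * h) * Rm D (s m) := by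
    intro m
    obtain ⟨i1, i2⟩ := Rm_inv D K hD hs' (s m) (hs0 m)
    rw [← hcomm]
    have e1 : Rm D (s m) * (a * (D + (s m : ℂ) • 1)) * Rm D (s m) = Rm D (s m) * a := by
      calc Rm D (s m) * (a * (D + (s m : ℂ) • 1)) * Rm D (s m) =
          Rm D (s m) * a * ((D + (s m : ℂ) • 1) * Rm D (s m)) := by simp only [mul_assoc]
        _ = Rm D (s m) * a := by rw [i2, mul_one]
    have e2 : Rm D (s m) * ((D + (s m : ℂ) • 1) * a) * Rm D (s m) = a * Rm D (s m) := by
      calc Rm D (s m) * ((D + (s m : ℂ) • 1) * a) * Rm D (s m) =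
          (Rm D (s m) * (D + (s m : ℂ) • 1)) * (a * Rm D (s m)) := by simp only [mul_assoc]
        _ = a * Rm D (s m) := by rw [i1, one_mul]
    have e3 : a * D - D * a = a * (D + (s m : ℂ) • 1) - (D + (s m : ℂ) • 1) * a := by
      simp only [mul_add, add_mul, mul_smul_comm, smul_mul_assoc, mul_one, one_mul]
      abel
    rw [e3, mul_sub, sub_mul, e1, e2]
    abel
  have hterm : ∀ m, Rm D (s m) * (a * D + h * κ * h) * Rm D (s m) =
      a * (Rm D (s m) * D * Rm D (s m)) +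
      (Rm D (s m) * h) * ((μ * (D * Rm D (s m))) * (h * Rm D (s m))) +
      (Rm D (s m) * h) * (κ * (h * Rm D (s m))) := by
    intro m
    have c1 := Rm_comm_D D hD (s m)
    have c2 := Rm_comm_hs D (s m)
    have c3 := hs_comm_D D hD
    rw [← hh_def] at c2 c3
    have e0 : Rm D (s m) * (a * D + h * κ * h) * Rm D (s m) =
        (Rm D (s m) * a) * (D * Rm D (s m)) + (Rm D (s m) * h) * (κ * (h * Rm D (s m))) := by
      simp only [mul_add, add_mul, mul_assoc]
    rw [e0, hRa m, add_mul]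
    congr 1
    have e1 : a * Rm D (s m) * (D * Rm D (s m)) = a * (Rm D (s m) * D * Rm D (s m)) := by
      simp only [mul_assoc]
    have e2 : Rm D (s m) * (h * μ * h) * Rm D (s m) * (D * Rm D (s m)) =
        (Rm D (s m) * h) * ((μ * (D * Rm D (s m))) * (h * Rm D (s m))) := by
      have e3 : h * (Rm D (s m) * (D * Rm D (s m))) =
          D * (Rm D (s m) * (h * Rm D (s m))) := by
        calc h * (Rm D (s m) * (D * Rm D (s m))) = h * (Rm D (s m) * D) * Rm D (s m) := by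
              simp only [mul_assoc]
          _ = h * (D * Rm D (s m)) * Rm D (s m) := by rw [c1]
          _ = (h * D) * (Rm D (s m) * Rm D (s m)) := by simp only [mul_assoc]
          _ = (D * h) * (Rm D (s m) * Rm D (s m)) := by rw [c3]
          _ = D * ((h * Rm D (s m)) * Rm D (s m)) := by simp only [mul_assoc]
          _ = D * ((Rm D (s m) * h) * Rm D (s m)) := by rw [c2]
          _ = D * (Rm D (s m) * (h * Rm D (s m))) := by simp only [mul_assoc]
      calc Rm D (s m) * (h * μ * h) * Rm D (s m) * (D * Rm D (s m)) =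
          Rm D (s m) * h * (μ * (h * (Rm D (s m) * (D * Rm D (s m))))) := by
            simp only [mul_assoc]
        _ = _ := by rw [e3]; simp only [mul_assoc]
    rw [e1, e2]
  -- the operators X
  set X : Fin J → A := fun i => ((√δ : ℝ) : ℂ) • (Rm D (s i) * h) with hXdef
  have hδδ : ((√δ : ℝ) : ℂ) * ((√δ : ℝ) : ℂ) = (δ : ℂ) := by
    rw [← Complex.ofReal_mul, Real.mul_self_sqrt hδ.le]
  have hstarX : ∀ i, star (X i) = ((√δ : ℝ) : ℂ) • (h * Rm D (s i)) := by
    intro i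
    rw [hXdef]
    simp only [star_smul, star_mul]
    rw [hsa.star_eq, (hRsa (s i) (hspos i)).star_eq]
    congr 1
    exact Complex.conj_ofReal _
  have hXc : ∀ (i : Fin J) (c : A), X i * (c * star (X i)) =
      (δ : ℂ) • ((Rm D (s i) * h) * (c * (h * Rm D (s i)))) := by
    intro i c
    rw [hstarX, hXdef]
    simp only [mul_smul_comm, smul_mul_assoc, smul_smul]
    rw [hδδ]
  have hXX : ∑ i, X i * star (X i) =
      (δ : ℂ) • ∑ m ∈ Finset.range J, Rm D (((m : ℝ) + 1) * δ) * D * Rm D (((m : ℝ) + 1) * δ) := by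
    rw [← Fin.sum_univ_eq_sum_range (fun m : ℕ => Rm D (((m : ℝ) + 1) * δ) * D *
      Rm D (((m : ℝ) + 1) * δ)) J, Finset.smul_sum]
    refine Finset.sum_congr rfl (fun i _ => ?_)
    have e := hXc i 1
    rw [one_mul, one_mul] at e
    rw [e]
    congr 1
    calc Rm D (s i) * h * (h * Rm D (s i)) = Rm D (s i) * (h * h) * Rm D (s i) := by
          simp only [mul_assoc]
      _ = _ := by rw [hh]
  have hXn : ‖∑ i, X i * star (X i)‖ ≤ 1 := by
    rw [hXX]; exact hsum δ J hδ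
  have hb1 : ‖∑ i : Fin J, X i * ((fun _ => κ) i * star (X i))‖ ≤ ‖κ‖ :=
    sandwich hCS ‖κ‖ (norm_nonneg _) (fun _ => κ) X (fun _ => le_refl _) hXn
  have hb2 : ‖∑ i : Fin J, X i * ((μ * (D * Rm D (s i))) * star (X i))‖ ≤ ‖μ‖ := by
    refine sandwich hCS ‖μ‖ (norm_nonneg _) (fun i : Fin J => μ * (D * Rm D (s i))) X
      (fun i => ?_) hXn
    refine (norm_mul_le _ _).trans ?_
    calc ‖μ‖ * ‖D * Rm D (s i)‖ ≤ ‖μ‖ * 1 :=
          mul_le_mul_of_nonneg_left (norm_DR D K hD hs' (s i) (hs0 i)) (norm_nonneg _)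
      _ = ‖μ‖ := mul_one _
  have hdec : (δ : ℂ) • ∑ m ∈ Finset.range J, Rm D (((m : ℝ) + 1) * δ) *
      (a * D + h * κ * h) * Rm D (((m : ℝ) + 1) * δ) - a =
      a * ((δ : ℂ) • ∑ m ∈ Finset.range J, Rm D (((m : ℝ) + 1) * δ) * D *
        Rm D (((m : ℝ) + 1) * δ) - 1) +
      ∑ i : Fin J, X i * ((μ * (D * Rm D (s i))) * star (X i)) +
      ∑ i : Fin J, X i * (κ * star (X i)) := by
    have g1 : ∑ i : Fin J, X i * ((μ * (D * Rm D (s i))) * star (X i)) =
        (δ : ℂ) • ∑ m ∈ Finset.range J,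
          (Rm D (s m) * h) * ((μ * (D * Rm D (s m))) * (h * Rm D (s m))) := by
      rw [← Fin.sum_univ_eq_sum_range (fun m : ℕ => (Rm D (s m) * h) *
        ((μ * (D * Rm D (s m))) * (h * Rm D (s m)))) J, Finset.smul_sum]
      exact Finset.sum_congr rfl (fun i _ => hXc i _)
    have g2 : ∑ i : Fin J, X i * (κ * star (X i)) =
        (δ : ℂ) • ∑ m ∈ Finset.range J, (Rm D (s m) * h) * (κ * (h * Rm D (s m))) := by
      rw [← Fin.sum_univ_eq_sum_range (fun m : ℕ => (Rm D (s m) * h) *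
        (κ * (h * Rm D (s m)))) J, Finset.smul_sum]
      exact Finset.sum_congr rfl (fun i _ => hXc i _)
    have g3 : ∑ m ∈ Finset.range J, Rm D (((m : ℝ) + 1) * δ) *
        (a * D + h * κ * h) * Rm D (((m : ℝ) + 1) * δ) =
        a * ∑ m ∈ Finset.range J, Rm D (((m : ℝ) + 1) * δ) * D * Rm D (((m : ℝ) + 1) * δ) +
        ∑ m ∈ Finset.range J, (Rm D (s m) * h) * ((μ * (D * Rm D (s m))) * (h * Rm D (s m))) +
        ∑ m ∈ Finset.range J, (Rm D (s m) * h) * (κ * (h * Rm D (s m))) := by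
      rw [Finset.mul_sum, ← Finset.sum_add_distrib, ← Finset.sum_add_distrib]
      exact Finset.sum_congr rfl (fun m _ => hterm m)
    rw [g1, g2, g3]
    simp only [smul_add, mul_sub, mul_smul_comm, mul_one]
    abel
  rw [hdec]
  have hb3 := norm_one_sub D K hD hs' hK δ J hδ hJ
  calc _ ≤ ‖a * ((δ : ℂ) • ∑ m ∈ Finset.range J, Rm D (((m : ℝ) + 1) * δ) * D *
        Rm D (((m : ℝ) + 1) * δ) - 1)‖ +
      ‖∑ i : Fin J, X i * ((μ * (D * Rm D (s i))) * star (X i))‖ +
      ‖∑ i : Fin J, X i * (κ * star (X i))‖ := norm_add₃_le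
    _ ≤ ‖a‖ * (δ + K / (J * δ)) + 2 * ‖κ‖ + ‖κ‖ := by
        refine add_le_add (add_le_add ?_ (hb2.trans hμn)) hb1
        refine (norm_mul_le _ _).trans ?_
        exact mul_le_mul_of_nonneg_left hb3 (norm_nonneg _)
    _ = 3 * ‖κ‖ + ‖a‖ * (δ + K / (J * δ)) := by ring

end Pool.Agent.W59.SX
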